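import Mathlib
import Pool.Agent.MP_975ab8_al.Defs
import Pool.Agent.MP_975ab8_al.Mg.Main

namespace Pool.Agent.Results.MP_975ab8_al.AdditivePower

open Pool.Agent.MP_975ab8_al

theorem result {R : Type*} [CommRing R] [Finite R]
    (hchain : ∀ I J : Ideal R, I ≤ J ∨ J ≤ I)
    (γ : R) (hγ : (Ideal.span {γ}).IsMaximal)
    (e : ℕ) (he : IsLeast {i : ℕ | γ ^ i = 0} e)
    (q : ℕ) (hq : Nat.card (R ⧸ Ideal.span {γ}) = q)
    (p k m : ℕ) (hp : p.Prime) (hpq : p ∣ q) (hm : ¬ p ∣ m)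
    (hadd : ∀ x y : R, (x + y) ^ p ^ k = x ^ p ^ k + y ^ p ^ k) :
    (∀ (s : ℕ) (b : R), IsUnit b → s * p ^ k < e →
      (cnt (p ^ k * m) ((γ ^ s * b) ^ p ^ k) : ℚ) =
        (q : ℚ) ^ (e * (p ^ k * m - m)) * (q : ℚ) ^ (e - (e + p ^ k - 1) / p ^ k) *
          (unitCount m q e * coeffA m q s)) ∧
    (∀ a : R, (¬ ∃ x : R, x ^ p ^ k = a) → cnt (p ^ k * m) a = 0) ∧
    ((cnt (p ^ k * m) (0 : R) : ℚ) = (q : ℚ) ^ (e * (p ^ k * m)) -
      (q : ℚ) ^ (e * (p ^ k * m - m)) * ∑ s ∈ Finset.range ((e + p ^ k - 1) / p ^ k),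
        ((q : ℚ) - 1) * (q : ℚ) ^ (e - s - 1) * (unitCount m q e * coeffA m q s)) := by
  have _ := hchain
  refine main ⟨hγ, he.1, fun t ht h0 => absurd (he.2 h0) (not_le.2 ht), hq⟩ p k m hp hpq hm ?_
  rcases Nat.eq_zero_or_pos k with hk | hk
  · exact Or.inl hk
  right
  have h1 : 1 < p ^ k := Nat.one_lt_pow hk.ne' hp.one_lt
  have hn : ∀ n : ℕ, (n : R) ^ p ^ k = n := fun n => by
    induction n with
    | zero => rw [Nat.cast_zero, zero_pow (by omega)]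
    | succ n ih => rw [Nat.cast_succ, hadd, ih, one_pow]
  have hmem : (p : R) ∈ Ideal.span {γ} := by
    have : Finite (R ⧸ Ideal.span {γ}) := Finite.of_surjective _ Ideal.Quotient.mk_surjective
    have := Fintype.ofFinite (R ⧸ Ideal.span {γ})
    let _ : Field (R ⧸ Ideal.span {γ}) := Ideal.Quotient.field _
    obtain ⟨r, hr⟩ := CharP.exists (R ⧸ Ideal.span {γ})
    obtain ⟨n, hr', hc⟩ := FiniteField.card (R ⧸ Ideal.span {γ}) r
    rw [← hq, Nat.card_eq_fintype_card, hc] at hpq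
    have : p = r := (Nat.prime_dvd_prime_iff_eq hp hr').1 (hp.dvd_of_dvd_pow hpq)
    rw [← Ideal.Quotient.eq_zero_iff_mem, map_natCast, this]
    exact CharP.cast_eq_zero _ r
  obtain ⟨c, hc⟩ := Ideal.mem_span_singleton'.1 hmem
  have hit : ∀ j : ℕ, (p : R) ^ (p ^ k) ^ j = p := fun j => by
    induction j with
    | zero => rw [pow_zero, pow_one]
    | succ j ih => rw [pow_succ, pow_mul, ih, hn]
  rw [← hit e, ← hc, mul_pow, pow_eq_zero_of_le (Nat.lt_pow_self h1).le he.1, mul_zero]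

end Pool.Agent.Results.MP_975ab8_al.AdditivePower
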