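import Mathlib
import Pool.Agent.MP_975ab8_al.H19.PDefs
import Pool.Agent.MP_975ab8_al.Mg.H19_Glob

namespace Pool.Agent.Results.MP_975ab8_al.PrimeOnce

open Pool.Agent.MP_975ab8_al

theorem result {R : Type*} [CommRing R] [Finite R]
    (hchain : ∀ I J : Ideal R, I ≤ J ∨ J ≤ I)
    (γ : R) (e : ℕ) (he : IsLeast {i : ℕ | γ ^ i = 0} e)
    {k : Type*} [Field k] [Fintype k] [DecidableEq k] (π : R →+* k) (hπ : Function.Surjective π)
    (hker : RingHom.ker π = Ideal.span {γ}) (q : ℕ) (hq : Fintype.card k = q)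
    (p m : ℕ) (hp : p.Prime) (hpq : p ∣ q) (hm : ¬ p ∣ m)
    (E : ℕ) (u : R) (hu : IsUnit u) (hpu : (p : R) = γ ^ E * u) (hE : E < e)
    (K : ℕ → Type*) [∀ n, Field (K n)] [∀ n, Algebra k (K n)]
    (hK : ∀ n, 0 < n → Module.finrank k (K n) = n) (ψ : AddChar k ℂ) (hψ : ψ ≠ 1) :
    (∀ a : R, a ≠ 0 → ∃ (s j : ℕ) (w x : R), s < e ∧ IsUnit w ∧
      (E ≤ j ∨ (¬ p ∣ j ∧ IsUnit x)) ∧ a = γ ^ s * w ^ p * (1 + γ ^ j * x)) ∧
    (∀ (s j : ℕ) (w x : R), s < e → IsUnit w → (E ≤ j ∨ (¬ p ∣ j ∧ IsUnit x)) →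
      (cnt (p * m) (γ ^ s * w ^ p * (1 + γ ^ j * x)) : ℂ) =
        (q : ℂ) ^ (e * (p * m)) * ((coeffV p E (-π u) m q s : ℚ) +
          ∑ i ∈ (Finset.range E).filter (fun i => ¬ p ∣ i ∧ i ≤ j ∧ s + i < e),
            (q : ℂ) ^ ((Finset.range i).filter fun l => ¬ p ∣ l).card *
              ∑ κ ∈ Finset.univ.erase (0 : k), ψ (-(κ * if i = j then π x else 0)) *
                eulerCoeff m q p
                  (fun n => twist p (E - i) (K n) fun y => ψ (κ * (-π u * y))) s) /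
          (((q : ℂ) - 1) * (q : ℂ) ^ (e - s - 1))) ∧
    (cnt (p * m) (0 : R) : ℚ) =
      (q : ℚ) ^ (e * (p * m)) * (1 - ∑ s ∈ Finset.range e, coeffV p E (-π u) m q s) := by
  have _ := hchain
  have r : H19.Res π γ := ⟨hπ, fun x => by
    rw [← RingHom.mem_ker, hker, Ideal.mem_span_singleton]⟩
  have h := r.chain he.1 fun t ht h0 => absurd (he.2 h0) (not_le.2 ht)
  rw [Nat.card_eq_fintype_card, hq] at h
  have hE0 : 0 < E := Nat.pos_of_ne_zero fun h0 => h.not_isUnit (isUnit_of_dvd_unit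
    (dvd_natCast h hp hpq) (by rw [hpu, h0, pow_zero, one_mul]; exact hu))
  refine ⟨fun a ha => H19.exists_form h r hp hpu hE0 ha, fun s j w x hs hw hj => ?_,
    H19.count_zero h r hp hpq hm hu hpu K hK⟩
  obtain rfl : ‹DecidableEq k› = fun a b => Classical.propDecidable (a = b) :=
    Subsingleton.elim _ _
  exact H19.count_main h r hp hpq hm hu hpu hE K hK hψ hs hw hj

end Pool.Agent.Results.MP_975ab8_al.PrimeOnce
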