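import Mathlib
import Pool.Agent.MP_975ab8_al.GDefs
import Pool.Agent.MP_975ab8_al.Mg.GMain

namespace Pool.Agent.Results.MP_975ab8_al.Unramified

open Pool.Agent.MP_975ab8_al

theorem result {R : Type*} [CommRing R] [Finite R]
    (hchain : ∀ I J : Ideal R, I ≤ J ∨ J ≤ I)
    (γ : R) (hγ : (Ideal.span {γ}).IsMaximal)
    (e : ℕ) (he : IsLeast {i : ℕ | γ ^ i = 0} e)
    (q : ℕ) (hq : Nat.card (R ⧸ Ideal.span {γ}) = q)
    (p k m : ℕ) (hp : p.Prime) (hpq : p ∣ q) (hm : ¬ p ∣ m)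
    (hn : Ideal.span {((p ^ k * m : ℕ) : R)} = Ideal.span {γ ^ k}) :
    (∀ (s : ℕ) (b : R), IsUnit b → 1 ≤ s → s < e →
      (cnt (p ^ k * m) (γ ^ s * b) : ℚ) =
        (q : ℚ) ^ (e * (p ^ k * m)) * coeffG p k m q s / (((q : ℚ) - 1) * q ^ (e - s - 1))) ∧
    (cnt (p ^ k * m) (0 : R) : ℚ) =
      (q : ℚ) ^ (e * (p ^ k * m)) * (1 - ∑ s ∈ Finset.range e, coeffG p k m q s) := by
  have _ := hchain
  refine gmain ⟨hγ, he.1, fun t ht h0 => absurd (he.2 h0) (not_le.2 ht), hq⟩ hp hpq hm ?_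
  rw [← Ideal.mem_span_singleton, hn]
  exact Ideal.mem_span_singleton_self _

end Pool.Agent.Results.MP_975ab8_al.Unramified
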